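import Mathlib
import Pool.Agent.J4H41.NC.One
import Pool.Agent.J4H41.NC.Low

/-! Let `f` be an `n`-central polynomial for `M_n(K)`, `n` an odd prime.  Every polynomial `g` that
commutes with `f` on `M_n(K)`, or only with its conjugate `f g f ⁻¹`, is scalar valued on
`M_{n-1}(K)`. -/

set_option autoImplicit false

namespace Pool.Agent.Results.MP_5d2531_al.CommutingPolynomials

open Pool.Agent.J4H41.NC

/-- Every value of `f` on `n × n` matrices over `K` is a scalar matrix. -/
def ScalarValued {K : Type*} [Field K] {σ : Type*} (n : ℕ) (f : FreeAlgebra K σ) : Prop :=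
  ∀ X : σ → Matrix (Fin n) (Fin n) K, ∃ c : K, FreeAlgebra.lift K X f = Matrix.scalar (Fin n) c

/-- `f` is central for `M_n(K)`: all values are scalar and `f` is not identically zero. -/
def IsCentral {K : Type*} [Field K] {σ : Type*} (n : ℕ) (f : FreeAlgebra K σ) : Prop :=
  ScalarValued n f ∧ ∃ X : σ → Matrix (Fin n) (Fin n) K, FreeAlgebra.lift K X f ≠ 0

/-- `f` is `ν`-central for `M_n(K)`: `ν` is the least positive integer with `f ^ ν` central. -/
def IsNuCentral {K : Type*} [Field K] {σ : Type*} (n ν : ℕ) (f : FreeAlgebra K σ) : Prop :=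
  0 < ν ∧ IsCentral n (f ^ ν) ∧ ∀ μ : ℕ, 0 < μ → IsCentral n (f ^ μ) → ν ≤ μ

/-- The coefficient of the word `l` in `f`. -/
noncomputable def coef {K : Type*} [Field K] {σ : Type*} (f : FreeAlgebra K σ) (l : List σ) : K :=
  (FreeAlgebra.equivMonoidAlgebraFreeMonoid f).coeff (FreeMonoid.ofList l)

/-- The polynomials `f` and `g` commute on `n × n` matrices over `K`. -/
def CommuteOn {K : Type*} [Field K] {σ : Type*} (n : ℕ) (f g : FreeAlgebra K σ) : Prop :=
  ∀ X : σ → Matrix (Fin n) (Fin n) K,
    FreeAlgebra.lift K X f * FreeAlgebra.lift K X g =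
      FreeAlgebra.lift K X g * FreeAlgebra.lift K X f

/-- The value at zero is the coefficient of the empty word. -/
theorem lift_zero_coef {K : Type*} [Field K] {σ : Type*} (f : FreeAlgebra K σ) :
    FreeAlgebra.lift K (fun _ : σ => (0 : K)) f = coef f [] := by
  classical
  obtain ⟨g, rfl⟩ := (FreeAlgebra.equivMonoidAlgebraFreeMonoid (R := K) (X := σ)).symm.surjective f
  unfold coef
  rw [AlgEquiv.apply_symm_apply]
  induction g using MonoidAlgebra.induction_linear with
  | zero => simp
  | add g h hg hh =>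
    rw [map_add, map_add, hg, hh, MonoidAlgebra.coeff_add, Finsupp.add_apply]
  | single w c =>
    rw [Pool.Agent.TH82.NC.lift_symm_single, MonoidAlgebra.coeff_single, Finsupp.single_apply]
    by_cases h : w = FreeMonoid.ofList []
    · subst h
      rw [if_pos rfl]
      simp
    · rw [if_neg h]
      have h1 : FreeMonoid.toList w ≠ [] := fun e => h (by rw [← e]; rfl)
      obtain ⟨a, l, hl⟩ := List.exists_cons_of_ne_nil h1
      rw [hl, List.map_cons, List.prod_cons, zero_mul, smul_zero]

/-- Let `n` be an odd prime, `K` an infinite field of any characteristic, `f` an `n`-central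
polynomial for `M_n(K)`, and `g` a polynomial which on `M_n(K)` commutes with `f g f ^ (n - 1)`
(as `f ^ n` is central, this is the conjugate `f g f ⁻¹` up to the central factor `f ^ n`; the
condition holds if `g` commutes with `f`).
* Every value of `g` on `M_{n-1}(K)` is a scalar matrix.
* `g` is equal to its constant term on `M_k(K)` for all `k ≤ n - 2`; also for `k = n - 1` if the
  characteristic of `K` is `n` and `g` commutes with `f`.
* Every nonempty word occurring in `g` has length at least `2 n - 2` and contains, for every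
  variable `x`, at least `n - 1` letters different from `x`. -/
theorem result {K : Type*} [Field K] [Infinite K] {σ : Type*} [DecidableEq σ] (n : ℕ)
    (hn : n.Prime) (hn2 : n ≠ 2) (f g : FreeAlgebra K σ) (hcen : IsNuCentral n n f)
    (hg : CommuteOn n g (f * g * f ^ (n - 1))) :
    ScalarValued (n - 1) g ∧
    (∀ k : ℕ, k + 2 ≤ n → ∀ X : σ → Matrix (Fin k) (Fin k) K,
      FreeAlgebra.lift K X g = Matrix.scalar (Fin k) (coef g [])) ∧
    ((n : K) = 0 → CommuteOn n f g → ∀ X : σ → Matrix (Fin (n - 1)) (Fin (n - 1)) K,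
      FreeAlgebra.lift K X g = Matrix.scalar (Fin (n - 1)) (coef g [])) ∧
    (∀ l : List σ, l ≠ [] → coef g l ≠ 0 →
      2 * n - 2 ≤ l.length ∧ ∀ x : σ, n - 1 ≤ l.countP (fun a => a ≠ x)) := by
  obtain ⟨N, rfl⟩ : ∃ N, n = N + 1 := ⟨n - 1, by have := hn.pos; omega⟩
  have hN : 2 ≤ N := by have := hn.two_le; omega
  obtain ⟨h1, ⟨h2, X0, hX0⟩, h3⟩ := hcen
  have hfX0 : FreeAlgebra.lift K X0 f ≠ 0 := by
    intro hz
    apply hX0
    rw [map_pow, hz, zero_pow hn.ne_zero]
  have hpow : ∀ X : σ → Matrix (Fin (N + 1)) (Fin (N + 1)) K,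
      ∀ Z : Matrix (Fin (N + 1)) (Fin (N + 1)) K,
      FreeAlgebra.lift K X (f ^ (N + 1)) * Z = Z * FreeAlgebra.lift K X (f ^ (N + 1)) := by
    intro X Z
    obtain ⟨c, hc⟩ := h2 X
    rw [hc]
    exact (Matrix.scalar_commute c (fun _ => Commute.all _ _) Z).eq
  have hns : ∃ X : σ → Matrix (Fin (N + 1)) (Fin (N + 1)) K,
      ∃ Z : Matrix (Fin (N + 1)) (Fin (N + 1)) K,
      FreeAlgebra.lift K X f * Z ≠ Z * FreeAlgebra.lift K X f := by
    by_contra hcon
    push Not at hcon
    have h4 : IsCentral (N + 1) (f ^ 1) := by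
      rw [pow_one]
      exact ⟨fun X => Pool.Agent.H552R3.PC.scalar_of_comm _ (fun Y => hcon X Y), X0, hfX0⟩
    have h5 := h3 1 one_pos h4
    omega
  have hmain := both1 (by omega) hn f g hpow ⟨X0, hX0⟩ hns (fun X => by
    rw [map_sub, map_mul _ g, map_mul _ _ g, sub_eq_zero]
    exact hg X)
  have hct : ct g = coef g [] := lift_zero_coef g
  refine ⟨hmain, ?_, ?_, ?_⟩
  · intro k hk X
    rw [← hct]
    exact all_down g hmain (N - 1 - k) k (by omega) X
  · intro hK hfg X
    rw [← hct]
    refine cent_of_eq (by omega) hn hK f g hpow hns ?_ X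
    intro X
    rw [map_sub, map_mul, map_mul, sub_eq_zero]
    exact hfg X
  · intro l hl0 hl
    have h6 := len_ge hN g hmain l hl0 hl
    exact ⟨by omega, h6.2⟩

end Pool.Agent.Results.MP_5d2531_al.CommutingPolynomials
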