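import Mathlib
import Pool.Agent.J4H41.NC.Rs3
import Pool.Agent.J4H41.NC.Grp
import Pool.Agent.J4H41.NC.Low
import Pool.Agent.J4H41.NC.General

/-! Galois groups of noncommutative polynomials at generic matrices.  Let `g` have a nonscalar value
on `M_q(K)`, `q` a prime different from the characteristic.  For `n ≥ q` the characteristic
polynomial of `g` at the generic `n × n` matrices is irreducible and separable, and its Galois group
is `(n - q + 1)`-transitive, contains a `q`-cycle, contains the alternating group if `n ≥ q + 3` or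
`q = 3`, and is the symmetric group if `q = 2`. -/

set_option autoImplicit false

namespace Pool.Agent.Results.MP_5d2531_al.GaloisGroups

open Pool.Agent.J4H41.NC Pool.Agent.H552R3.PC

/-- Every value of `f` on `n × n` matrices over `K` is a scalar matrix. -/
def ScalarValued {K : Type*} [Field K] {σ : Type*} (n : ℕ) (f : FreeAlgebra K σ) : Prop :=
  ∀ X : σ → Matrix (Fin n) (Fin n) K, ∃ c : K, FreeAlgebra.lift K X f = Matrix.scalar (Fin n) c

/-- The coefficient of the word `l` in `f`. -/
noncomputable def coef {K : Type*} [Field K] {σ : Type*} (f : FreeAlgebra K σ) (l : List σ) : K :=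
  (FreeAlgebra.equivMonoidAlgebraFreeMonoid f).coeff (FreeMonoid.ofList l)

/-- The generic `n × n` matrices: the entries are independent variables. -/
noncomputable def generic (K : Type*) [Field K] (σ : Type*) (n : ℕ) :
    σ → Matrix (Fin n) (Fin n) (MvPolynomial (σ × Fin n × Fin n) K) :=
  fun s => Matrix.of fun i j => MvPolynomial.X (s, i, j)

/-- The characteristic polynomial of `g` at the generic `n × n` matrices, over the field of
fractions of the polynomial ring in the entries. -/
noncomputable def genericCharpoly {K : Type*} [Field K] {σ : Type*} (n : ℕ)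
    (g : FreeAlgebra K σ) :
    Polynomial (FractionRing (MvPolynomial (σ × Fin n × Fin n) K)) :=
  (FreeAlgebra.lift K (generic K σ n) g).charpoly.map
    (algebraMap (MvPolynomial (σ × Fin n × Fin n) K)
      (FractionRing (MvPolynomial (σ × Fin n × Fin n) K)))

/-- The Galois group of `χ`, acting on the roots of `χ`, is `k`-transitive. -/
def Transitive {E : Type*} [Field E] (χ : Polynomial E) (k : ℕ) : Prop :=
  ∀ x y : Fin k ↪ χ.rootSet χ.SplittingField, ∃ τ : χ.Gal, ∀ i, τ • x i = y i

/-- Some element of the Galois group of `χ` acts on the roots of `χ` as a cycle of length `q`. -/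
def ContainsCycle {E : Type*} [Field E] (χ : Polynomial E) (q : ℕ) : Prop :=
  ∃ (τ : χ.Gal) (S : Finset (χ.rootSet χ.SplittingField)), S.card = q ∧
    (∀ x, x ∉ S → τ • x = x) ∧ ∀ x ∈ S, ∀ y ∈ S, ∃ m : ℕ, τ ^ m • x = y

/-- The Galois group of `χ`, acting on the roots of `χ`, contains all even permutations. -/
def ContainsAlternating {E : Type*} [Field E] (χ : Polynomial E) : Prop :=
  ∀ (_ : DecidableEq (χ.rootSet χ.SplittingField))
    (π : Equiv.Perm (χ.rootSet χ.SplittingField)), Equiv.Perm.sign π = 1 →
      ∃ τ : χ.Gal, ∀ x : χ.rootSet χ.SplittingField, π x = τ • x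

/-- The Galois group of `χ` induces all permutations of the roots of `χ`. -/
def IsSymmetric {E : Type*} [Field E] (χ : Polynomial E) : Prop :=
  ∀ π : Equiv.Perm (χ.rootSet χ.SplittingField),
    ∃ τ : χ.Gal, ∀ x : χ.rootSet χ.SplittingField, π x = τ • x

/-- The value at zero is the coefficient of the empty word. -/
theorem lift_zero_coef {K : Type*} [Field K] {σ : Type*} (f : FreeAlgebra K σ) :
    FreeAlgebra.lift K (fun _ : σ => (0 : K)) f = coef f [] := by
  classical
  obtain ⟨g, rfl⟩ := (FreeAlgebra.equivMonoidAlgebraFreeMonoid (R := K) (X := σ)).symm.surjective f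
  unfold coef
  rw [AlgEquiv.apply_symm_apply]
  induction g using MonoidAlgebra.induction_linear with
  | zero => simp
  | add g h hg hh =>
    rw [map_add, map_add, hg, hh, MonoidAlgebra.coeff_add, Finsupp.add_apply]
  | single w c =>
    rw [Pool.Agent.TH82.NC.lift_symm_single, MonoidAlgebra.coeff_single, Finsupp.single_apply]
    by_cases h : w = FreeMonoid.ofList []
    · subst h
      rw [if_pos rfl]
      simp
    · rw [if_neg h]
      have h1 : FreeMonoid.toList w ≠ [] := fun e => h (by rw [← e]; rfl)
      obtain ⟨a, l, hl⟩ := List.exists_cons_of_ne_nil h1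
      rw [hl, List.map_cons, List.prod_cons, zero_mul, smul_zero]

theorem main {K : Type*} [Field K] {σ : Type*} {n q : ℕ} (hq : q.Prime)
    (hqn : q ≤ n) (hqK : (q : K) ≠ 0) (g : FreeAlgebra K σ) (hg : ¬ ScalarValued q g) :
    (Irreducible (genericCharpoly n g) ∧ (genericCharpoly n g).Separable ∧
      (genericCharpoly n g).natDegree = n) ∧
    MulAction.IsMultiplyPretransitive (genericCharpoly n g).Gal
      ((genericCharpoly n g).rootSet (genericCharpoly n g).SplittingField) (n - q + 1) ∧
    HasCyc (genericCharpoly n g).Gal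
      ((genericCharpoly n g).rootSet (genericCharpoly n g).SplittingField) q := by
  have hns : ¬ ∃ r : GA K σ q, FreeAlgebra.lift K (gen K σ q) g = Matrix.scalar (Fin q) r := by
    rintro ⟨r, hr⟩
    exact hg fun X => ⟨_, scalar_of_gen hr X⟩
  have : NeZero q := ⟨hq.ne_zero⟩
  exact ⟨CC_props hq hqK g hns n hqn, ind hq hqK g hns n hqn⟩

theorem prim {E : Type*} [Field E] (χ : Polynomial E) (hs : χ.Separable) {n q : ℕ}
    (hq : q.Prime) (hqn : q ≤ n) (hn : χ.natDegree = n)
    (h : MulAction.IsMultiplyPretransitive χ.Gal (χ.rootSet χ.SplittingField) (n - q + 1)) :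
    MulAction.IsPreprimitive χ.Gal (χ.rootSet χ.SplittingField) := by
  have hcard : Nat.card (χ.rootSet χ.SplittingField) = n := by
    rw [Nat.card_eq_fintype_card, Polynomial.card_rootSet_eq_natDegree hs
      (Polynomial.IsSplittingField.splits _ _), hn]
  rcases Nat.eq_or_lt_of_le hqn with rfl | hlt
  · rw [Nat.sub_self, zero_add, MulAction.is_one_pretransitive_iff] at h
    exact MulAction.IsPreprimitive.of_prime_card (hcard ▸ hq)
  · apply MulAction.isPreprimitive_of_is_two_pretransitive
    exact MulAction.isMultiplyPretransitive_of_le (n := n - q + 1) (by omega)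
      (by rw [hcard]; have := hq.two_le; omega)

theorem notSolvable {E : Type*} [Field E] (χ : Polynomial E) (hi : Irreducible χ)
    (hs : χ.Separable) {n q : ℕ} (hn : n.Prime) (hnd : χ.natDegree = n) (hq : 2 ≤ q)
    (hqn : q + 2 ≤ n) (h : HasCyc χ.Gal (χ.rootSet χ.SplittingField) q) :
    ¬ Group.IsSolvable χ.Gal := by
  classical
  intro hsol
  have htr := gal_trans χ hi
  have hfa := gal_faithful χ
  have hcard : Fintype.card (χ.rootSet χ.SplittingField) = n := by
    rw [Polynomial.card_rootSet_eq_natDegree hs (Polynomial.IsSplittingField.splits _ _), hnd]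
  obtain ⟨c, S, hS, h1, h2⟩ := h
  have h3 : 1 < (Sᶜ).card := by
    rw [Finset.card_compl, hcard]; omega
  obtain ⟨x, hx, y, hy, hxy⟩ := Finset.one_lt_card.mp h3
  have hc : c = 1 := fix_two (by rw [Nat.card_eq_fintype_card, hcard]; exact hn) x y hxy c
    (h1 x (Finset.mem_compl.mp hx)) (h1 y (Finset.mem_compl.mp hy))
  obtain ⟨a, ha, b, hb, hab⟩ := Finset.one_lt_card.mp (by omega : 1 < S.card)
  obtain ⟨m, hm⟩ := h2 a ha b hb
  apply hab
  rw [← hm, hc, one_pow, one_smul]

/-- Let `K` be an infinite field, `n` a positive integer and `g` a noncommutative polynomial over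
`K`.  Let `χ` be its characteristic polynomial at the generic `n × n` matrices.
* If `q ≤ n` is a prime different from the characteristic and `g` has a nonscalar value on
  `M_q(K)`, for instance if a nonempty word of length less than `2 q` occurs in `g`, then `χ` is
  irreducible and separable, and its Galois group, acting on the `n` roots, is
  `(n - q + 1)`-transitive and contains a `q`-cycle; it contains the alternating group if
  `n ≥ q + 3` or `q = 3`, and it is the symmetric group if `q = 2`.
* If `1 ≤ m ≤ n`, `χ` is separable and `g` has a nonscalar value on `M_m(K)`, then `m` is not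
  coprime to the order of the Galois group of `χ` (in every characteristic).
* If `n ≥ 5` is a prime and the Galois group of `χ` is solvable, then for every `m` with
  `2 ≤ m < n` which is coprime to `n - 1` (such as `m = n - 2`) or a prime different from the
  characteristic: all values of `g` on `M_m(K)` are scalar, `g` is equal to its constant term on
  `M_k(K)` for `k < m`, and every nonempty word occurring in `g` has length at least `2 m` and
  contains, for every variable `x`, at least `m` letters different from `x`. -/
theorem result {K : Type*} [Field K] [Infinite K] {σ : Type*} [DecidableEq σ] (n : ℕ)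
    (g : FreeAlgebra K σ) :
    (∀ q : ℕ, q.Prime → q ≤ n → (q : K) ≠ 0 →
      (¬ ScalarValued q g ∨ ∃ l : List σ, l ≠ [] ∧ coef g l ≠ 0 ∧ l.length < 2 * q) →
      Irreducible (genericCharpoly n g) ∧ (genericCharpoly n g).Separable ∧
        Transitive (genericCharpoly n g) (n - q + 1) ∧ ContainsCycle (genericCharpoly n g) q ∧
        (q = 3 ∨ q + 3 ≤ n → ContainsAlternating (genericCharpoly n g)) ∧
        (q = 2 → IsSymmetric (genericCharpoly n g))) ∧
    (∀ m : ℕ, 1 ≤ m → m ≤ n → (genericCharpoly n g).Separable →
      ¬ ScalarValued m g → ¬ m.Coprime (Nat.card (genericCharpoly n g).Gal)) ∧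
    (n.Prime → 5 ≤ n → Group.IsSolvable (genericCharpoly n g).Gal →
      ∀ m : ℕ, 2 ≤ m → m < n → (m.Coprime (n - 1) ∨ m.Prime ∧ (m : K) ≠ 0) →
        ScalarValued m g ∧
        (∀ k : ℕ, k < m → ∀ X : σ → Matrix (Fin k) (Fin k) K,
          FreeAlgebra.lift K X g = Matrix.scalar (Fin k) (coef g [])) ∧
        (∀ l : List σ, l ≠ [] → coef g l ≠ 0 →
          2 * m ≤ l.length ∧ ∀ x : σ, m ≤ l.countP (fun a => a ≠ x))) := by
  have hct : ct g = coef g [] := lift_zero_coef g
  have key : n.Prime → 5 ≤ n → Group.IsSolvable (genericCharpoly n g).Gal →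
      ∀ q : ℕ, q.Prime → q < n → (q : K) ≠ 0 → ScalarValued q g := by
    intro hn hn5 hsol q hq hqn hqK
    by_contra hg
    obtain ⟨⟨h1, h2, h3⟩, _, h5⟩ := main hq hqn.le hqK g hg
    have hq2 : q + 2 ≤ n := by
      by_contra hcon
      have h6 : n = q + 1 := by omega
      rcases hq.eq_two_or_odd' with h | h
      · omega
      · rcases hn.eq_two_or_odd' with h' | h'
        · omega
        · rw [h6] at h'
          exact (Nat.not_even_iff_odd.mpr h') (h.add_one)
    exact notSolvable (genericCharpoly n g) h1 h2 hn h3 hq.two_le hq2 h5 hsol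
  have hgen : ∀ m : ℕ, ¬ ScalarValued m g →
      ¬ ∃ r : GA K σ m, FreeAlgebra.lift K (gen K σ m) g = Matrix.scalar (Fin m) r := by
    rintro m hm ⟨r, hr⟩
    exact hm fun X => ⟨_, scalar_of_gen hr X⟩
  have hdown : ∀ m : ℕ, m < n → ¬ ScalarValued m g → ¬ ScalarValued n g := by
    intro m hm hm' hcon
    exact hm' fun X => ⟨_, all_down g hcon (n - 1 - m) m (by omega) X⟩
  have key3 : n.Prime → 5 ≤ n → Group.IsSolvable (genericCharpoly n g).Gal →
      ∀ m : ℕ, 2 ≤ m → m < n → (m.Coprime (n - 1) ∨ m.Prime ∧ (m : K) ≠ 0) →
        ScalarValued m g := by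
    intro hn hn5 hsol m hm2 hmn hm
    have h0 : NeZero m := ⟨by omega⟩
    have h0' : NeZero n := ⟨by omega⟩
    rcases hm with hm | ⟨hm, hmK⟩
    · by_cases hs : (genericCharpoly n g).Separable
      · exact solv_cop hn hmn g hs hsol hm
      · by_contra hcon
        have hnsn := hgen n (hdown m hmn hcon)
        have hirr := (irr_or_scalar hn g).resolve_left hnsn
        have hi : Irreducible (CC n g) :=
          (Polynomial.Monic.irreducible_iff_irreducible_map_fraction_map
            (Matrix.charpoly_monic _)).mp hirr
        have hmK : (m : K) ≠ 0 := by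
          intro hm0
          apply hs
          change (CC n g).Separable
          rw [Polynomial.separable_iff_derivative_ne_zero hi]
          intro hd
          have hnd : (CC n g).natDegree = n := by
            unfold CC
            rw [(Matrix.charpoly_monic _).natDegree_map, Matrix.charpoly_natDegree_eq_dim,
              Fintype.card_fin]
          have h1 := congrArg (fun p : Polynomial (FractionRing (GA K σ n)) => p.coeff (n - 1)) hd
          simp only [Polynomial.coeff_derivative, Polynomial.coeff_zero] at h1
          have h2 : n - 1 + 1 = n := by omega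
          have hmon : (CC n g).Monic := (Matrix.charpoly_monic _).map _
          have h3 : (CC n g).coeff n = 1 := by
            have := hmon.coeff_natDegree
            rwa [hnd] at this
          rw [h2, h3, one_mul] at h1
          have hnK : (n : K) = 0 := by
            apply (algebraMap K (FractionRing (GA K σ n))).injective
            rw [map_zero, map_natCast, ← h1, Nat.cast_sub (by omega : 1 ≤ n)]
            push_cast
            ring
          obtain ⟨p, hp⟩ := CharP.exists K
          have h4 : p ∣ m := (CharP.cast_eq_zero_iff K p m).mp hm0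
          have h5 : p ∣ n := (CharP.cast_eq_zero_iff K p n).mp hnK
          have h6 := Nat.eq_one_of_dvd_coprimes
            (Nat.coprime_of_lt_prime (by omega) hmn hn).symm h4 h5
          rw [h6] at hp
          exact CharP.char_ne_one K 1 rfl
        exact solv_scalar hn hmn g hmK (hgen m hcon) hnsn hsol hm
    · exact key hn hn5 hsol m hm hmn hmK
  refine ⟨fun q hq hqn hqK hg => ?_, fun m hm1 hmn hs hg hcop => ?_,
    fun hn hn5 hsol m hm2 hmn hm => ⟨?_, ?_, ?_⟩⟩
  · have hg' : ¬ ScalarValued q g := by
      rcases hg with hg | ⟨l, hl0, hl, hlen⟩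
      · exact hg
      · intro hcon
        have := (len_ge hq.two_le g hcon l hl0 hl).1
        omega
    obtain ⟨⟨h1, h2, h3⟩, h4, h5⟩ := main hq hqn hqK g hg'
    have hp := prim (genericCharpoly n g) h2 hq hqn h3 h4
    have hcard : Fintype.card ((genericCharpoly n g).rootSet
        (genericCharpoly n g).SplittingField) = n := by
      rw [Polynomial.card_rootSet_eq_natDegree h2 (Polynomial.IsSplittingField.splits _ _), h3]
    refine ⟨h1, h2, fun x y => ?_, h5, fun h6 _ π hπ => ?_, fun h6 π => ?_⟩
    · obtain ⟨τ, hτ⟩ := h4.exists_smul_eq x y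
      exact ⟨τ, fun i => congrArg (fun f : Fin (n - q + 1) ↪ _ => f i) hτ⟩
    · exact alt_of_cyc hq h5 hp (by rwa [hcard]) π hπ
    · subst h6
      exact top_of_cyc h5 hp π
  · have : NeZero m := ⟨by omega⟩
    obtain ⟨r, hr⟩ := cop_scalar hmn g hs hcop
    exact hg fun X => ⟨_, scalar_of_gen hr X⟩
  · exact key3 hn hn5 hsol m hm2 hmn hm
  · intro k hk X
    rw [← hct]
    exact all_down g (key3 hn hn5 hsol m hm2 hmn hm) (m - 1 - k) k (by omega) X
  · intro l hl0 hl
    exact len_ge hm2 g (key3 hn hn5 hsol m hm2 hmn hm) l hl0 hl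

end Pool.Agent.Results.MP_5d2531_al.GaloisGroups
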