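import Mathlib
import Pool.Agent.J4H41.NC.Alt2
import Pool.Agent.J4H41.NC.Wl
import Pool.Agent.J4H41.NC.Cop
import Pool.Agent.J4H41.NC.Rs3
import Pool.Agent.J4H41.NC.Wl2
import Pool.Agent.J4H41.NC.Low
import Pool.Agent.J4H41.NC.General

/-! Let `g` be a noncommutative polynomial whose characteristic polynomial at the generic `n × n`
matrices is separable with a Galois group of odd order (for example, `n` is odd and the value of `g`
at the generic matrices generates a cyclic maximal subfield of the generic division algebra).  If
`g` is constant on `M_d(K)` and `M_e(K)`, where `d + e = n` and `d`, `e` are coprime, then `g` is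
constant on all block upper triangular matrices with diagonal blocks of sizes `d`, `e`, or on all
block lower triangular ones, and all nonempty words of `g` have length at least `2 n`.

The proof: scale the lower left block by `t`.  The square of `g - c` is `t` times a matrix `N`, and
`N` is block triangular at `t = 0`, its diagonal blocks being the products of the two off-diagonal
parts of `g`.  If one of these products is not nilpotent then an eigenvalue of `g - c` is the square
root of `t` times a unit at some prime over `t`, and `t` has even ramification index.  So the traces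
of the products vanish, and then one of the two off-diagonal parts vanishes.

If `m < n` is coprime to the order of the Galois group, then `g` is scalar valued on `M_m(K)`, in
every characteristic: residue extensions of a Galois extension of degree not divisible by the
characteristic are separable. -/

set_option autoImplicit false

namespace Pool.Agent.Results.MP_5d2531_al.OddGaloisGroups

open Pool.Agent.J4H41.NC Pool.Agent.H552R3.PC Pool.Agent.TH82.NC

/-- The coefficient of the word `l` in `f`. -/
noncomputable def coef {K : Type*} [Field K] {σ : Type*} (f : FreeAlgebra K σ) (l : List σ) : K :=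
  (FreeAlgebra.equivMonoidAlgebraFreeMonoid f).coeff (FreeMonoid.ofList l)

/-- The generic `n × n` matrices: the entries are independent variables. -/
noncomputable def generic (K : Type*) [Field K] (σ : Type*) (n : ℕ) :
    σ → Matrix (Fin n) (Fin n) (MvPolynomial (σ × Fin n × Fin n) K) :=
  fun s => Matrix.of fun i j => MvPolynomial.X (s, i, j)

/-- The characteristic polynomial of `g` at the generic `n × n` matrices, over the field of
fractions of the polynomial ring in the entries. -/
noncomputable def genericCharpoly {K : Type*} [Field K] {σ : Type*} (n : ℕ)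
    (g : FreeAlgebra K σ) :
    Polynomial (FractionRing (MvPolynomial (σ × Fin n × Fin n) K)) :=
  (FreeAlgebra.lift K (generic K σ n) g).charpoly.map
    (algebraMap (MvPolynomial (σ × Fin n × Fin n) K)
      (FractionRing (MvPolynomial (σ × Fin n × Fin n) K)))

/-- Every value of `f` on `n × n` matrices over `K` is a scalar matrix. -/
def ScalarValued {K : Type*} [Field K] {σ : Type*} (n : ℕ) (f : FreeAlgebra K σ) : Prop :=
  ∀ X : σ → Matrix (Fin n) (Fin n) K, ∃ c : K, FreeAlgebra.lift K X f = Matrix.scalar (Fin n) c

/-- All values of `g` on `m × m` matrices over `K` are equal to the constant term of `g`. -/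
def ConstantOn {K : Type*} [Field K] {σ : Type*} (m : ℕ) (g : FreeAlgebra K σ) : Prop :=
  ∀ X : σ → Matrix (Fin m) (Fin m) K, FreeAlgebra.lift K X g = Matrix.scalar (Fin m) (coef g [])

/-- `g` is equal to its constant term on all block upper triangular matrices over `K` with diagonal
blocks of sizes `d`, `e`, or on all block lower triangular ones. -/
def TriangularConstant {K : Type*} [Field K] {σ : Type*} (d e : ℕ) (g : FreeAlgebra K σ) : Prop :=
  (∀ (A : σ → Matrix (Fin d) (Fin d) K) (A' : σ → Matrix (Fin e) (Fin e) K)
    (B : σ → Matrix (Fin d) (Fin e) K),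
    FreeAlgebra.lift K (fun i => Matrix.fromBlocks (A i) (B i) 0 (A' i)) g =
      Matrix.scalar (Fin d ⊕ Fin e) (coef g [])) ∨
  (∀ (A : σ → Matrix (Fin d) (Fin d) K) (A' : σ → Matrix (Fin e) (Fin e) K)
    (C : σ → Matrix (Fin e) (Fin d) K),
    FreeAlgebra.lift K (fun i => Matrix.fromBlocks (A i) 0 (C i) (A' i)) g =
      Matrix.scalar (Fin d ⊕ Fin e) (coef g []))

/-- Every nonempty word occurring in `g` has length at least `2 n`, at least `2 n + ⌊n / d⌋` if it
has less than `2 d` distinct letters, and at least `2 ^ n` rearrangements of it (itself included)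
occur in `g`. -/
def LongWords {K : Type*} [Field K] {σ : Type*} [DecidableEq σ] (n d : ℕ)
    (g : FreeAlgebra K σ) : Prop :=
  ∀ l : List σ, l ≠ [] → coef g l ≠ 0 →
    2 * n ≤ l.length ∧ (l.toFinset.card < 2 * d → 2 * n + n / d ≤ l.length) ∧
      2 ^ n ≤ {l' : List σ | l'.Perm l ∧ coef g l' ≠ 0}.ncard

/-- The component of degree `N` of `g` is alternating: the coefficients of the words of length `N`
change the sign if two neighbouring letters are exchanged, and the words of length `N` occurring in
`g` have no repeated letters. -/
def Alternating {K : Type*} [Field K] {σ : Type*} (N : ℕ) (g : FreeAlgebra K σ) : Prop :=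
  (∀ (p s : List σ) (a b : σ), p.length + 2 + s.length = N →
    coef g (p ++ b :: a :: s) = - coef g (p ++ a :: b :: s)) ∧
  ∀ l : List σ, l.length = N → coef g l ≠ 0 → l.Nodup

/-- The value at zero is the coefficient of the empty word. -/
theorem lift_zero_coef {K : Type*} [Field K] {σ : Type*} (f : FreeAlgebra K σ) :
    FreeAlgebra.lift K (fun _ : σ => (0 : K)) f = coef f [] := by
  classical
  obtain ⟨g, rfl⟩ := (FreeAlgebra.equivMonoidAlgebraFreeMonoid (R := K) (X := σ)).symm.surjective f
  unfold coef
  rw [AlgEquiv.apply_symm_apply]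
  induction g using MonoidAlgebra.induction_linear with
  | zero => simp
  | add g h hg hh =>
    rw [map_add, map_add, hg, hh, MonoidAlgebra.coeff_add, Finsupp.add_apply]
  | single w c =>
    rw [Pool.Agent.TH82.NC.lift_symm_single, MonoidAlgebra.coeff_single, Finsupp.single_apply]
    by_cases h : w = FreeMonoid.ofList []
    · subst h
      rw [if_pos rfl]
      simp
    · rw [if_neg h]
      have h1 : FreeMonoid.toList w ≠ [] := fun e => h (by rw [← e]; rfl)
      obtain ⟨a, l, hl⟩ := List.exists_cons_of_ne_nil h1
      rw [hl, List.map_cons, List.prod_cons, zero_mul, smul_zero]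

theorem tc_vanU {K : Type*} [Field K] {σ : Type*} {d e : ℕ} {g : FreeAlgebra K σ}
    (h : TriangularConstant d e g) :
    Pool.Agent.R844.NC.VanU (Fin d) (Fin e) (Pool.Agent.R844.NC.cn g) ∨
      Pool.Agent.R844.NC.VanU (Fin d) (Fin e)
        (Pool.Agent.R844.NC.rv (Pool.Agent.R844.NC.cn g)) := by
  rcases h with h4 | h4
  · left
    intro A B D
    exact Pool.Agent.R844.NC.zero_cn g _ (h4 A D B)
  · right
    apply Pool.Agent.R844.NC.VanL.rv
    intro A B D
    exact Pool.Agent.R844.NC.zero_cn g _ (h4 A D B)

theorem alt_of {K : Type*} [Field K] [Infinite K] {σ : Type*} {k k' n : ℕ} {g : FreeAlgebra K σ}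
    (hk : 0 < k) (hkn : k < n) (hk' : 0 < k') (hkn' : k' < n) (hkk : k ≠ k') (hkk' : k + k' ≠ n)
    (h : TriangularConstant k (n - k) g) (h' : TriangularConstant k' (n - k') g) :
    Alternating (2 * n) g := by
  have H := sw_two hk hkn hk' hkn' hkk hkk' _ (tc_vanU h) (tc_vanU h')
  refine ⟨fun p s a b hps => ?_, fun l hl hc => ?_⟩
  · have h3 := (H p s hps a b).1
    rw [Pool.Agent.R844.NC.cn_apply g (by simp), Pool.Agent.R844.NC.cn_apply g (by simp)] at h3
    exact (neg_eq_of_add_eq_zero_right h3).symm
  · have hl0 : l ≠ [] := by
      rintro rfl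
      simp only [List.length_nil] at hl
      omega
    exact Pool.Agent.R844.NC.nodup_of_sw (Pool.Agent.R844.NC.cn g) (2 * n) H l hl
      (by rw [Pool.Agent.R844.NC.cn_apply g hl0]; exact hc)

theorem main {K : Type*} [Field K] [Infinite K] {σ : Type*} [DecidableEq σ] {d e : ℕ}
    (hd : 0 < d) (he : 0 < e) (hco : d.Coprime e) (g : FreeAlgebra K σ)
    (hs : (genericCharpoly (d + e) g).Separable)
    (hodd : Odd (Nat.card (genericCharpoly (d + e) g).Gal))
    (h1 : ConstantOn d g) (h2 : ConstantOn e g) :
    TriangularConstant d e g ∧ LongWords (d + e) d g := by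
  have : NeZero d := ⟨hd.ne'⟩
  have : NeZero e := ⟨he.ne'⟩
  have hz : ∀ {m : ℕ}, ConstantOn m g → ∀ Y : σ → Matrix (Fin m) (Fin m) K,
      FreeAlgebra.lift K Y (g - algebraMap K (FreeAlgebra K σ) (coef g [])) = 0 := by
    intro m hm Y
    rw [map_sub, AlgHom.commutes, hm Y]
    exact sub_self _
  have hzero : ∀ {ι κ : Type} [Fintype ι] [Fintype κ] [DecidableEq ι] [DecidableEq κ]
      (Y : σ → Matrix (ι ⊕ κ) (ι ⊕ κ) K),
      FreeAlgebra.lift K Y (g - algebraMap K (FreeAlgebra K σ) (coef g [])) = 0 →
      FreeAlgebra.lift K Y g = Matrix.scalar (ι ⊕ κ) (coef g []) := by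
    intro ι κ _ _ _ _ Y hY
    rw [map_sub, AlgHom.commutes] at hY
    exact sub_eq_zero.mp hY
  have h3 : TriangularConstant d e g := by
    rcases alternative_odd hco g (coef g []) (hz h1) (hz h2) hs hodd.not_two_dvd_nat with h4 | h4
    · left
      intro A A' B
      apply hzero
      rw [lift_up, h4, hz h1, hz h2, Matrix.fromBlocks_zero]
    · right
      intro A A' C
      apply hzero
      rw [lift_lo, h4, hz h1, hz h2, Matrix.fromBlocks_zero]
  refine ⟨h3, fun l hl hc => ?_⟩
  obtain ⟨h5, h6⟩ := long' (c := Pool.Agent.R844.NC.cn g) hd he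
    (fun X => Pool.Agent.R844.NC.zero_cn g X (h1 X)) (tc_vanU h3) (l := l)
    (by rw [Pool.Agent.R844.NC.cn_apply g hl]; exact hc)
  exact ⟨h5, h6, many hd g (coef g []) h3 l hl hc⟩

/-- Let `K` be an infinite field of any characteristic and `g` a noncommutative polynomial over `K`
whose characteristic polynomial at the generic `n × n` matrices is separable and has a Galois group
`G` of odd order.
* If `d + e = n`, `d` and `e` are coprime, and `g` is equal to its constant term on `M_d(K)` and on
  `M_e(K)`, then `g` is equal to it on all block upper triangular matrices with diagonal blocks of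
  sizes `d`, `e`, or on all block lower triangular ones; every nonempty word occurring in `g` has
  length at least `2 n`, at least `2 n + ⌊n / d⌋` if it has less than `2 d` distinct letters, and at
  least `2 ^ n` of its rearrangements occur in `g`.
* Let `0 < m < n` be coprime to the order of `G`, or let `n` be a prime, `G` solvable and `m` coprime
  to `n - 1`.  Then all values of `g` on `M_m(K)` are scalar, `g` is equal to its constant term on
  `M_k(K)` for all `k < m`, and the conclusion of the first part is true for all coprime `d, e < m`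
  with `d + e = n`.  If `n` is a prime and `2 m ≥ n + 4`, the component of degree `2 n` of `g` is
  alternating.  (For example, `n ≥ 5` is a prime, `G` is cyclic of order `n` and `m = n - 1`.) -/
theorem result {K : Type*} [Field K] [Infinite K] {σ : Type*} [DecidableEq σ] (n : ℕ)
    (g : FreeAlgebra K σ) (hs : (genericCharpoly n g).Separable)
    (hodd : Odd (Nat.card (genericCharpoly n g).Gal)) :
    (∀ d e : ℕ, 0 < d → 0 < e → d + e = n → d.Coprime e → ConstantOn d g → ConstantOn e g →
      TriangularConstant d e g ∧ LongWords n d g) ∧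
    (∀ m : ℕ, 0 < m → m < n → (m.Coprime (Nat.card (genericCharpoly n g).Gal) ∨
        (n.Prime ∧ Group.IsSolvable (genericCharpoly n g).Gal ∧ m.Coprime (n - 1))) →
      ScalarValued m g ∧ (∀ k : ℕ, k < m → ConstantOn k g) ∧
      (∀ d e : ℕ, d < m → e < m → d + e = n → d.Coprime e →
        TriangularConstant d e g ∧ LongWords n d g) ∧
      (n.Prime → n + 4 ≤ 2 * m → Alternating (2 * n) g)) := by
  have hct : ct g = coef g [] := lift_zero_coef g
  have key : ∀ d e : ℕ, 0 < d → 0 < e → d + e = n → d.Coprime e → ConstantOn d g →
      ConstantOn e g → TriangularConstant d e g ∧ LongWords n d g := by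
    intro d e hd he hde hco h1 h2
    subst hde
    exact main hd he hco g hs hodd h1 h2
  have hconst : ∀ m : ℕ, (∀ X : σ → Matrix (Fin m) (Fin m) K, ∃ c : K,
      FreeAlgebra.lift K X g = Matrix.scalar (Fin m) c) → ∀ k : ℕ, k < m → ConstantOn k g := by
    intro m hm k hk X
    rw [← hct]
    exact all_down g hm (m - 1 - k) k (by omega) X
  have hcoprime : n.Prime → ∀ d e : ℕ, 0 < d → 0 < e → d + e = n → d.Coprime e := by
    intro hn d e hd he hde
    have h4 : Nat.gcd d e ∣ d + e := Nat.dvd_add (Nat.gcd_dvd_left d e) (Nat.gcd_dvd_right d e)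
    rw [hde] at h4
    rcases (Nat.dvd_prime hn).mp h4 with h5 | h5
    · exact h5
    · have h6 := Nat.gcd_le_left e hd
      omega
  refine ⟨key, fun m hm0 hmn hm => ?_⟩
  have h0 : NeZero m := ⟨by omega⟩
  have h0' : NeZero n := ⟨by omega⟩
  have h1 : ScalarValued m g := by
    rcases hm with hcop | ⟨hn, hsol, hcop⟩
    · obtain ⟨r, hr⟩ := cop_scalar hmn.le g hs hcop
      exact fun X => ⟨_, scalar_of_gen hr X⟩
    · exact solv_cop hn hmn g hs hsol hcop
  have h2 : ∀ d e : ℕ, d < m → e < m → d + e = n → d.Coprime e →
      TriangularConstant d e g ∧ LongWords n d g := by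
    intro d e hd he hde hco
    exact key d e (by omega) (by omega) hde hco (hconst _ h1 d hd) (hconst _ h1 e he)
  refine ⟨h1, hconst _ h1, h2, fun hn hm4 => ?_⟩
  have hne : (n - m + 1) + (n - m + 2) ≠ n := by omega
  exact alt_of (k := n - m + 1) (k' := n - m + 2) (by omega) (by omega) (by omega) (by omega)
    (by omega) hne
    (h2 _ _ (by omega) (by omega) (by omega)
      (hcoprime hn _ _ (by omega) (by omega) (by omega))).1
    (h2 _ _ (by omega) (by omega) (by omega)
      (hcoprime hn _ _ (by omega) (by omega) (by omega))).1

end Pool.Agent.Results.MP_5d2531_al.OddGaloisGroups
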